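import Pool.Agent.Y325.SC.Fin

/-!
# Smoothed analysis of conic programs: sharp tails of the condition number

The condition number `C` of the Gaussian perturbation of a conic program has, uniformly in all pairs
of closed convex cones and for arbitrary (also not normalised) data and variance, a tail of order
`1 / t` without logarithmic factors. For normalised data it is at most a constant times
`(m n)^(5/2) / (σ t)`, and the dependence on `t` and on `σ` is optimal, already for one linear program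
with `m = n = 1`. Hence all moments of `C` of order less than one are finite, with explicit bounds,
and `E[log C] ≤ log (1 / σ) + (5/2) log (m n) + 12`, which contains the positive answer to Q1.

Idea. The starting library has `P[ρ < s] ≤ 128 (m n)^2 s / σ` for the distance `ρ` to ill-posedness.
The numerator `‖A, b, c‖` of `C` is unbounded and depends on `ρ`. On the shell
`‖d - a‖ ≥ 2 σ √N k` the Gaussian of variance `σ²` in dimension `N` is at most
`2^(N/2) exp (-N k²)` times the Gaussian of variance `2 σ²`, to which the bound for `ρ` applies as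
well; the sum over the shells gives the tail without any loss.
-/

open MeasureTheory
open scoped ENNReal

namespace Pool.Agent.Results.MP_722786_an.SharpTails

open Pool.Agent.H836R3 Pool.Agent.Y325.SC

/-- **Sharp tails of the condition number of conic programs.**

(1) For all `m, n ≥ 1`, all closed convex cones `C₁ ⊆ ℝ^m`, `C₂ ⊆ ℝ^n`, all data `a = (Ā, b̄, c̄)` and
all `σ > 0`, let `Q = 4608 (m n)² (‖a‖ / σ + √(m n))`. For the `σ`-Gaussian perturbation of `a` one
has `P[C ≥ t] ≤ Q / t` for all `t > 0` and `E[C^p] ≤ Q^p / (1 - p)` for all `0 < p < 1`. If moreover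
`‖a‖ ≤ 1` and `σ ≤ 1` then `E[(log C)⁺]` and `E[log C]` are at most
`12 + (5/2) log (m n) + log (1 / σ)`, in particular `E[log C] ≤ 12 (1 + log (m n / σ))`.

(2) The order `1 / (σ t)` of the tail is optimal: for `m = n = 1`, `C₁ = C₂ = [0, ∞)` and the data
`(Ā, b̄, c̄) = (0, 1, 0)` one has `P[C ≥ t] ≥ c / (σ t)` for all `0 < σ ≤ 1` and `t ≥ 1 / σ`. -/
theorem result :
    (∀ m n : ℕ, 1 ≤ m → 1 ≤ n → ∀ (C₁ : Set (Fin m → ℝ)) (C₂ : Set (Fin n → ℝ)),
      IsClosedConvexCone C₁ → IsClosedConvexCone C₂ → ∀ (a : Data m n) (σ : ℝ), 0 < σ →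
        Measurable (condNum C₁ C₂) ∧
        (∀ t : ℝ, 0 < t → gaussPi a σ {d | ENNReal.ofReal t ≤ condNum C₁ C₂ d} ≤
          ENNReal.ofReal (4608 * ((m : ℝ) * n) ^ 2 * (frob a / σ + Real.sqrt (m * n)) / t)) ∧
        (∀ p : ℝ, 0 < p → p < 1 → ∫⁻ d, condNum C₁ C₂ d ^ p ∂(gaussPi a σ) ≤
          ENNReal.ofReal
            ((4608 * ((m : ℝ) * n) ^ 2 * (frob a / σ + Real.sqrt (m * n))) ^ p / (1 - p))) ∧
        (frob a ≤ 1 → σ ≤ 1 →
          ∫⁻ d, (ENNReal.log (condNum C₁ C₂ d)).toENNReal ∂(gaussPi a σ) ≤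
            ENNReal.ofReal (12 + 5 / 2 * Real.log (m * n) + Real.log (1 / σ)) ∧
          expect (gaussPi a σ) (fun d => ENNReal.log (condNum C₁ C₂ d)) ≤
            ((12 + 5 / 2 * Real.log (m * n) + Real.log (1 / σ) : ℝ) : EReal) ∧
          expect (gaussPi a σ) (fun d => ENNReal.log (condNum C₁ C₂ d)) ≤
            ((12 * (1 + Real.log (m * n / σ)) : ℝ) : EReal))) ∧
    ∃ c : ℝ, 0 < c ∧ ∀ σ : ℝ, 0 < σ → σ ≤ 1 → ∀ t : ℝ, 1 / σ ≤ t →
      ENNReal.ofReal (c / (σ * t)) ≤ gaussPi a01 σ {d | ENNReal.ofReal t ≤ condNum half half d} := by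
  refine ⟨fun m n hm hn C₁ C₂ h1 h2 a σ hσ => ⟨measurable_condNum h1 h2, ?_, ?_, ?_⟩,
    Pool.Agent.Y980.SC.low⟩
  · intro t ht
    exact tail' hm hn h1 h2 a hσ ht
  · intro p hp hp1
    have hm1 : (1 : ℝ) ≤ m := by exact_mod_cast hm
    have hn1 : (1 : ℝ) ≤ n := by exact_mod_cast hn
    have hfa : 0 ≤ frob a / σ := div_nonneg (frob_nonneg a) hσ.le
    have hQ : 0 < 4608 * ((m : ℝ) * n) ^ 2 * (frob a / σ + Real.sqrt (m * n)) := by positivity
    exact Pool.Agent.Y980.SC.mom (gaussPi a σ) _ (measurable_condNum h1 h2) hQ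
      (fun t ht => tail' hm hn h1 h2 a hσ ht) hp hp1
  · intro ha hσ1
    obtain ⟨e1, e2⟩ := expect_le hm hn h1 h2 a hσ ha hσ1
    refine ⟨e1, e2, e2.trans ?_⟩
    exact_mod_cast twelve_le hm hn hσ hσ1

end Pool.Agent.Results.MP_722786_an.SharpTails
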